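import Mathlib

/-!
# Embeddings of the algebraic closure of the `ℓ`-adic numbers into the complex numbers
-/

set_option autoImplicit false

namespace Pool.Agent.NH93.HY

open Cardinal

section

variable (p : ℕ) [hp : Fact p.Prime]

theorem mk_padic_le : #ℚ_[p] ≤ 𝔠 := by
  have h1 : ∀ x : ℚ_[p], ∃ u : ℕ → ℚ, Filter.Tendsto (fun n => ((u n : ℚ) : ℚ_[p])) Filter.atTop
      (nhds x) := by
    intro x
    have hd : DenseRange (fun q : ℚ => (q : ℚ_[p])) := Padic.denseRange_ratCast p
    have hx : x ∈ closure (Set.range (fun q : ℚ => (q : ℚ_[p]))) := hd x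
    obtain ⟨v, hv, hlim⟩ := mem_closure_iff_seq_limit.mp hx
    choose u hu using hv
    refine ⟨u, ?_⟩
    simp only [hu]
    exact hlim
  choose u hu using h1
  have hinj : Function.Injective u := by
    intro x y hxy
    have h2 := hu y
    rw [← hxy] at h2
    exact tendsto_nhds_unique (hu x) h2
  have := Cardinal.mk_le_of_injective hinj
  refine this.trans ?_
  simp

theorem mk_algCl_le : #(PadicAlgCl p) ≤ 𝔠 := by
  have h := Algebra.IsAlgebraic.cardinalMk_le_max ℚ_[p] (PadicAlgCl p)
  refine h.trans (max_le (mk_padic_le p) aleph0_le_continuum)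


end

/-- abstract version -/
theorem t16_extend {L K M : Type} [Field L] [Field K] [Field M] [Algebra L K] [Algebra L M]
    [IsAlgClosed M] (hL : Cardinal.mk L ≤ Cardinal.aleph0)
    (hM : Cardinal.aleph0 < Cardinal.mk M) (hKM : Cardinal.mk K ≤ Cardinal.mk M) :
    Nonempty (K →ₐ[L] M) := by
  obtain ⟨s, hs⟩ := exists_isTranscendenceBasis L K
  obtain ⟨s', hs'⟩ := exists_isTranscendenceBasis L M
  have h1 := IsAlgClosed.cardinal_eq_cardinal_transcendence_basis_of_aleph0_lt _ hs' hL hM
  simp only [Cardinal.lift_id] at h1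
  have h2 : Cardinal.mk s ≤ Cardinal.mk s' := by
    rw [← h1]
    exact (Cardinal.mk_set_le s).trans hKM
  obtain ⟨e⟩ := Cardinal.le_def _ _ |>.1 h2
  have hw : AlgebraicIndependent L (fun i : s => ((e i : s') : M)) := hs'.1.comp e e.injective
  let A := Algebra.adjoin L (Set.range ((↑) : s → K))
  let ψ : A →ₐ[L] M := (MvPolynomial.aeval (fun i : s => ((e i : s') : M))).comp
    (hs.1.aevalEquiv.symm : A →ₐ[L] MvPolynomial s L)
  have hψ : Function.Injective ψ := by
    have := hw
    rw [algebraicIndependent_iff_injective_aeval] at this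
    exact this.comp hs.1.aevalEquiv.symm.injective
  let _ : Algebra A M := ψ.toRingHom.toAlgebra
  have hf : FaithfulSMul A M := (faithfulSMul_iff_algebraMap_injective A M).2 hψ
  have halg : Algebra.IsAlgebraic A K := hs.isAlgebraic
  let τ : K →ₐ[A] M := IsAlgClosed.lift
  refine ⟨{ τ.toRingHom with commutes' := fun x => ?_ }⟩
  have e1 : algebraMap L K x = algebraMap A K (algebraMap L A x) := rfl
  have e2 : τ (algebraMap A K (algebraMap L A x)) = ψ (algebraMap L A x) := τ.commutes _
  change τ (algebraMap L K x) = _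
  rw [e1, e2, AlgHom.commutes]


theorem exists_emb (ℓ : ℕ) [Fact ℓ.Prime] : Nonempty (PadicAlgCl ℓ →+* ℂ) := by
  obtain ⟨f⟩ := t16_extend (L := ℚ) (K := PadicAlgCl ℓ) (M := ℂ) (by simp)
    (by rw [Cardinal.mk_complex]; exact Cardinal.aleph0_lt_continuum)
    (by rw [Cardinal.mk_complex]; exact mk_algCl_le ℓ)
  exact ⟨f.toRingHom⟩

end Pool.Agent.NH93.HY
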